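import Pool.Agent.Lib.MP_8d5788_an.Defs

set_option autoImplicit false
open MeasureTheory

/-!
# MP_8d5788_an: pieces for the existence of the word system (`S_sys`)
-/

namespace Pool.Agent.Lib.MP_8d5788_an

/-- data of one level -/
structure Lvl where
  h : ℕ
  len : ℕ
  s : ℕ
  e : ℕ
  V : ℕ → Bool
  q : ℕ → ℕ → ℕ
  T : ℕ
  c : ℕ → ℕ
  z : ℕ → ℕ
  b : ℕ → ℕ

instance : Nonempty Lvl := ⟨⟨0, 0, 0, 0, fun _ => false, fun _ _ => 0, 0, fun _ => 0, fun _ => 0, fun _ => 0⟩⟩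

/-- the properties of the word of level `j` which do not refer to other levels -/
structure Basic (j : ℕ) (L : Lvl) : Prop where
  len_eq : L.len = L.s + L.e
  e_ge : 2 ≤ L.e
  start_ones : ∀ u, u ≤ L.h → L.V u = true
  start_zero : L.V (L.h + 1) = false
  h_lt : L.h + 1 < L.s
  last : L.V (L.len - 1) = false
  norun : ∀ b, 1 ≤ b → b + L.h < L.len → ∃ u ≤ L.h, L.V (b + u) = false
  h_ge : j + 10 ≤ L.h
  h_mod : L.h % 4 = 2
  len_big : 2 * L.h + j + 20 ≤ L.len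

/-- all properties of level `j`, given the previous levels `f i`, `i < j` -/
structure GoodLvl (k : ℕ → ℕ) (n : ℕ → ℕ → ℕ) (j : ℕ) (f : ℕ → Lvl) (L : Lvl) : Prop extends Basic j L where
  h_mono : ∀ i, i < j → (f i).h < L.h
  len_ge : ∀ j' m, j' ≤ j → m < k j' → 2 * n j' m + j + 10 ≤ L.len
  zone_lt : ∀ t, t < L.T → L.z t < k j
  piece_left : ∀ t, t < L.T → L.h + 2 ≤ L.c t
  piece_right : ∀ t, t < L.T → L.c t + n j (L.z t) ≤ L.s
  piece_prev : ∀ t, t < L.T → L.V (L.c t - 1) = false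
  piece_disj : ∀ t t', t < t' → t' < L.T → L.c t + n j (L.z t) ≤ L.c t'
  piece_clean : ∀ t, t < L.T →
    Clean (fun i => (f i).len) (fun i => (f i).V) j (n j (L.z t)) (fun u => L.V (L.c t + u))
  nest : ∀ i p, i < j → 1 ≤ p → p < L.len → L.V (p - 1) = false →
    (∀ u, u < (f i).len → p + u < L.len → L.V (p + u) = (f i).V u) →
    ∃ t < L.T, L.c t ≤ p ∧ p + (f i).len ≤ L.c t + n j (L.z t)
  q_piece : ∀ m i, m < k j → i < 2 * L.e →
    ∃ t < L.T, L.z t = m ∧ L.c t ≤ L.q m i ∧ L.q m i < L.c t + n j m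
  q_inj : ∀ m i i', m < k j → i < 2 * L.e → i' < 2 * L.e → L.q m i = L.q m i' → i = i'
  q_free : ∀ m x i p, m < k j → x < 2 * L.e → i < j → 1 ≤ p → L.V (p - 1) = false →
    p + (f i).len ≤ L.len → (∀ u, u < (f i).len → L.V (p + u) = (f i).V u) →
    ¬ (p ≤ L.q m x ∧ L.q m x < p + (f i).len)
  q_ones : ∀ m i u, m < k j → i < 2 * L.e → u < m → u < L.q m i ∧ L.V (L.q m i - 1 - u) = true
  gap : ∀ m i w, m < k j → i < 2 * L.e → n j m ≤ 2 ^ w → 4 * w + 2 ≤ L.h →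
    ∃ y, L.q m i < y ∧ y ≤ L.q m i + 2 ^ w * (4 * w + 1) ∧ y + 4 * w ≤ L.len ∧
      ∀ u < 4 * w, L.V (y + u) = true
  slot : ∀ u, u < L.e → ∃ y, y ≤ L.s + u ∧ L.s + u ≤ y + L.h ∧ y + L.h < L.len ∧
    ∀ v < L.h, L.V (y + v) = true
  sep : 8 * L.s ≤ 8 * ∑ t ∈ Finset.range L.T, n j (L.z t) + L.e
  mult : ∀ m, m < k j → ∀ γ : Fin (n j m) → Bool,
    ((Finset.range L.T).filter (fun t => L.z t = m ∧
      ∀ u : Fin (n j m), L.V (L.c t + u) = γ u)).card ≤ L.b m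
  b_le : ∀ m, m < k j → L.b m * (n j m * 2 ^ (n j m)) ≤ 2 ^ (m + 6) * L.e

/-- B1. Strong recursion: choose levels one after another. -/
def S_rec : Prop := ∀ (α : Type) [Nonempty α] (P : ℕ → (ℕ → α) → α → Prop),
  (∀ j f g x, (∀ i < j, f i = g i) → P j f x → P j g x) →
  (∀ j f, (∀ i < j, P i f (f i)) → ∃ x, P j f x) → ∃ f : ℕ → α, ∀ j, P j f (f j)

open Classical in
/-- clean words of length `N` -/
noncomputable def cleanW (f : ℕ → Lvl) (j N : ℕ) : Finset (Fin N → Bool) :=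
  Finset.univ.filter (fun γ =>
    Clean (fun i => (f i).len) (fun i => (f i).V) j N (fun u => ext γ (u : ℤ)))

open Classical in
/-- available positions for zone `m` in the word `γ`: `m` ones before, not covered by an occurrence of a
previous marker word inside `γ` (`Γ u = ext γ u`) -/
noncomputable def avail (f : ℕ → Lvl) (j m : ℕ) {N : ℕ} (γ : Fin N → Bool) : Finset (Fin N) :=
  Finset.univ.filter (fun y => m ≤ (y : ℕ) ∧ (∀ u < m, ext γ (((y : ℕ) - 1 - u : ℕ) : ℤ) = true) ∧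
    ∀ i < j, ∀ b : ℕ, (b = 0 ∨ ext γ ((b - 1 : ℕ) : ℤ) = false) → b + (f i).len ≤ N →
      (∀ u < (f i).len, ext γ ((b + u : ℕ) : ℤ) = (f i).V u) → ¬ (b ≤ y ∧ (y : ℕ) < b + (f i).len))

/-- B2. Counting of available positions.
Proof (probability of a uniformly random `γ ∈ Bool^N`, i.e. counting functions with prescribed values
on a set of positions: `2^(N - |S|)` of them).  Let `m ≤ y < N / 2`, `A` = `m` ones before `y` and last
symbol `false` (probability `2^{-m-1}`, the positions `y-m..y-1` and `N-1` are distinct).  Bad events: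
(c1) a previous word `V i` occurs inside `γ` at `b` (with `b = 0` or `γ (b-1) = false`) and covers `y`.  If
`m ≥ h i + 2` this is impossible together with `A` (if `b ≤ y - m` the `m` ones are a run of `≥ h i + 2` ones
in `V i`: contradicts `start_zero` (offset `0`) or `norun`; if `b > y - m` then `γ (b-1) = true`).  If
`m ≤ h i + 1`: each of the `≤ len i` values of `b` has probability `≤ 2^{-len i}`, total
`≤ len i 2^{-len i} ≤ 2^{-m-1} · len i 2^{-(len i - h i - 2)}`, and `len i - h i - 2 ≥ len i / 2 + i/2 + 8`, so the sum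
over `i` is `≤ 2^{-m-1}/8`.
(c2) `γ` is cut by `V i`: `γ = V i` on the last `ℓ` positions, `ℓ < len i`, where `V i (ℓ-1) = false`, so
`ℓ ≥ h i + 2`.  If `ℓ ≤ N/2` the constraints are disjoint from `y-m..y-1`, so the probability together with
`A` is `≤ 2^{-m-ℓ}`; the sum over `ℓ ≥ h i + 2` and `i` is `≤ 2^{-m-1} ∑ 2^{-h i} ≤ 2^{-m-1}/8`.  If `ℓ > N/2`:
probability `≤ 2^{-ℓ}` and `ℓ ≥ h i + 2`, `ℓ ≥ N/2`, so `2^{-ℓ} ≤ 2^{-N/4} 2^{-(h i)/2}`-type bounds give a sum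
`≤ 2^{-m-1}/8` if `N` is large depending on `m`.
So at least half of `A` is clean with `y` available: probability `≥ 2^{-m-2}` for every `y ∈ [m, N/2)`, and the sum
over `y` is `≥ (N/2 - m - 1) 2^{-m-2} ≥ N 2^{-m-4}` for `N ≥ 4m+4` (or larger). -/
def S_count : Prop := ∃ N₁ : ℕ → ℕ, ∀ (f : ℕ → Lvl) (j m N : ℕ), (∀ i < j, Basic i (f i)) → N₁ m ≤ N →
  N * 2 ^ N ≤ 2 ^ (m + 4) * ∑ γ ∈ cleanW f j N, (avail f j m γ).card

/-- start of segment `t` (a piece of length `N t` followed by `1^{r t} 0`) -/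
def lpos (h : ℕ) (N r : ℕ → ℕ) (t : ℕ) : ℕ := h + 2 + ∑ t' ∈ Finset.range t, (N t' + r t' + 1)

/-- segment containing `p` -/
def lidx (h : ℕ) (N r : ℕ → ℕ) (T p : ℕ) : ℕ := Nat.findGreatest (fun t => lpos h N r t ≤ p) T

/-- the layout `1^{h+1} 0 (w₀ 1^{r 0} 0) (w₁ 1^{r 1} 0) ... (w_{T-1} 1^{r (T-1)} 0) (1^h 0)^∞` -/
def lay (h T : ℕ) (N r : ℕ → ℕ) (w : ℕ → ℕ → Bool) (p : ℕ) : Bool :=
  if p ≤ h then true else if p = h + 1 then false else
  if p < lpos h N r T then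
    (if p - lpos h N r (lidx h N r T p) < N (lidx h N r T p) then
      w (lidx h N r T p) (p - lpos h N r (lidx h N r T p))
    else decide (p ≠ lpos h N r (lidx h N r T p) + N (lidx h N r T p) + r (lidx h N r T p)))
  else decide ((p - lpos h N r T) % (h + 1) ≠ h)

/-- B3. Values of the layout.  (`lidx (lpos t + u) = t` for `u ≤ N t + r t`, since `lpos (t+1) = lpos t + N t + r t + 1`
and `lpos` is strictly increasing.) -/
def S_lay : Prop := ∀ (h T : ℕ) (N r : ℕ → ℕ) (w : ℕ → ℕ → Bool),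
  (∀ p ≤ h, lay h T N r w p = true) ∧ lay h T N r w (h + 1) = false ∧
  (∀ t < T, ∀ u < N t, lay h T N r w (lpos h N r t + u) = w t u) ∧
  (∀ t < T, ∀ u < r t, lay h T N r w (lpos h N r t + N t + u) = true) ∧
  (∀ t < T, lay h T N r w (lpos h N r t + N t + r t) = false) ∧
  (∀ u, lay h T N r w (lpos h N r T + u) = decide (u % (h + 1) ≠ h)) ∧
  (∀ t, lpos h N r (t + 1) = lpos h N r t + N t + r t + 1) ∧
  (∀ t t', t < t' → lpos h N r t + N t + r t + 1 ≤ lpos h N r t') ∧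
  (∀ p, h + 2 ≤ p → p < lpos h N r T → ∃ t < T, ∃ u ≤ N t + r t, p = lpos h N r t + u) ∧
  (∀ t ≤ T, 1 ≤ t → lay h T N r w (lpos h N r t - 1) = false) ∧ lay h T N r w (lpos h N r 0 - 1) = false

/-- B4. No run of `h + 1` ones in the layout except at the start.  Proof: cases for `b ≥ 1`: `b ≤ h+1` (zero at
`h+1`); `b` in segment `t` at offset `o`: if `o < N t`, zero at the end of the piece
(`w t (N t - 1) = false`, at most `N t ≤ h` positions later); otherwise the zero at offset `N t + r t`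
(`r t ≤ h`); `b ≥ lpos T`: among `h + 1` consecutive positions one has `u % (h+1) = h`. -/
def S_laynorun : Prop := ∀ (h T : ℕ) (N r : ℕ → ℕ) (w : ℕ → ℕ → Bool),
  (∀ t < T, 1 ≤ N t ∧ N t ≤ h ∧ r t ≤ h ∧ w t (N t - 1) = false) → ∀ b, 1 ≤ b →
  ∃ u ≤ h, lay h T N r w (b + u) = false

/-- B5. Nestedness.  Let `U` (length `l`) start with `1^{g+1} 0`, `g % 4 = 2`, `g < h`, `h % 4 = 2`, all `r t % 4 = 0`;
let `L = lpos T + C (h+1)` be the length of the layout; no `U`-start in a piece is cut (third hypothesis).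
If `p ≥ 1`, `p < L`, the symbol before `p` is `false` and `U` matches from `p` on as long as inside the
layout, then `U` lies inside one piece.  Proof.  `p ≤ h + 1`: the previous symbol is `true`,
contradiction.  `p` in segment `t`, offset `o`.  `o < N t`: `o = 0` or `w t (o-1) = false`; if `N t < o + l` the
hypothesis gives a mismatch inside the piece; so `o + l ≤ N t`.  `o > N t`, `o ≤ N t + r t`: the previous
symbol is `true`.  `o = N t`: the run is exactly `r t` (then `false`); if `r t ≤ g`, mismatch at `u = r t`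
(`U (r t) = true`); if `r t ≥ g + 2` mismatch at `u = g + 1`; `r t = g + 1` is impossible mod `4`; (if `r t = 0` and `o = N t`
then the symbol at `p` is `false` but `U 0 = true`: included).  `p ≥ lpos T`: `u = p - lpos T` has
`u % (h+1) = 0` (otherwise the previous symbol is `true`; or `u % (h+1) = h` where the symbol
at `p` is `false` but `U 0 = true`, but this needs the previous symbol `false`: `h ≥ 1` excludes it), and then the run is exactly `h ≥ g + 2`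
(`h > g`, `h ≠ g + 1` mod `4`), mismatch at `u = g + 1` (`p + g + 1 < L`). -/
def S_laynest : Prop := ∀ (h T C g l : ℕ) (N r : ℕ → ℕ) (w : ℕ → ℕ → Bool) (U : ℕ → Bool),
  g % 4 = 2 → h % 4 = 2 → g < h → g + 1 < l → (∀ u ≤ g, U u = true) → U (g + 1) = false →
  (∀ t < T, 1 ≤ N t ∧ N t ≤ h ∧ r t % 4 = 0 ∧ r t ≤ h) →
  (∀ t < T, ∀ b < N t, (b = 0 ∨ w t (b - 1) = false) → N t < b + l → ∃ u, b + u < N t ∧ w t (b + u) ≠ U u) →
  ∀ p, 1 ≤ p → p < lpos h N r T + C * (h + 1) → lay h T N r w (p - 1) = false →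
  (∀ u < l, p + u < lpos h N r T + C * (h + 1) → lay h T N r w (p + u) = U u) →
  ∃ t < T, lpos h N r t ≤ p ∧ p + l ≤ lpos h N r t + N t

/-- the ruler separators -/
def rul (h : ℕ) (N : ℕ → ℕ) (t : ℕ) : ℕ := min (h - 2) (4 * (Nat.clog 2 (N t) + padicValNat 2 (t + 1)))

/-- B6. Gap property of the ruler.  The segments `t ∈ [A, B)` have `N t = N₀`; `2^h ∣ B`.  If `t₀ ∈ [A, B)`,
`o < N₀`, `N₀ ≤ 2^w`, `4w + 2 ≤ h`, then there is a run of `4w` ones starting at `y`,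
`lpos t₀ + o < y ≤ lpos t₀ + o + 2^w (4w+1)`, ending before `lpos B` (`≤ lpos T`).
Proof.  `E = w - clog 2 N₀ ≥ 0`, `E ≤ h`.  Let `t₁ + 1` be the least multiple of `2^E` that is
`≥ t₀ + 1`; `t₁ + 1 ≤ B` since `2^E ∣ B`; `t₁ - t₀ < 2^E`.  The valuation of `t₁ + 1` is `≥ E`, so
`rul t₁ ≥ min (h-2) (4w) = 4w`; `y = lpos t₁ + N₀`.  For `t₀ ≤ t < t₁` the valuation of `t + 1` is `< E`, so
`rul t ≤ 4w - 4` and the segment has length `≤ N₀ + 4w - 3`.  So
`y - (lpos t₀ + o) ≤ (t₁ - t₀)(N₀ + 4w) + N₀ ≤ 2^E (N₀ + 4w) ≤ 2^w + 2^w 4w`, as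
`2^E N₀ ≤ 2^{w - clog} 2^{clog} = 2^w`. -/
def S_laygap : Prop := ∀ (h T A B N₀ : ℕ) (N : ℕ → ℕ) (W : ℕ → ℕ → Bool), 1 ≤ N₀ → B ≤ T →
  2 ^ h ∣ B → (∀ t, A ≤ t → t < B → N t = N₀) → ∀ t₀ o w, A ≤ t₀ → t₀ < B → o < N₀ → N₀ ≤ 2 ^ w →
  4 * w + 2 ≤ h → ∃ y, lpos h N (rul h N) t₀ + o < y ∧ y ≤ lpos h N (rul h N) t₀ + o + 2 ^ w * (4 * w + 1) ∧
    y + 4 * w ≤ lpos h N (rul h N) T ∧ ∀ u < 4 * w, lay h T N (rul h N) W (y + u) = true

/-- B7. Total length of the ruler separators: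
`∑_{t<T} (rul t + 1) ≤ ∑_{t<T} (4 clog N t + 5)`, since `∑_{t<T} v₂(t+1) = v₂(T!) ≤ T`
(`sub_one_mul_padicValNat_factorial`). -/
def S_rulsum : Prop := ∀ (h T : ℕ) (N : ℕ → ℕ),
  lpos h N (rul h N) T ≤ h + 2 + ∑ t ∈ Finset.range T, N t + ∑ t ∈ Finset.range T, (4 * Nat.clog 2 (N t) + 5)

/-- B8. Distribution of words over segments.  Given, for the zones `m < K`, nonempty finite sets `CL m` of
words of length `N m`, and multiplicities `b m` divisible by `2^h`, there are `T`, a zone function `z` and words `w t`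
(as functions on `ℕ`, `false` outside the length) such that zone `m` is the interval `[A m, A (m+1))`, `A 0 = 0`, `A K = T`,
`A (m+1) = A m + b m |CL m|`, all `A m` are divisible by `2^h`, the words of zone `m` are in `CL m` and each word of `CL m`
is the word of exactly `b m` segments of zone `m`.  (Word of `t = A m + l`: the element number `l % |CL m|` of an
enumeration of `CL m`.) -/
def S_dist : Prop := ∀ (h K : ℕ) (N b : ℕ → ℕ) (CL : ∀ m : ℕ, Finset (Fin (N m) → Bool)),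
  (∀ m < K, (CL m).Nonempty ∧ 2 ^ h ∣ b m ∧ 0 < b m) →
  ∃ (T : ℕ) (A z : ℕ → ℕ) (w : ℕ → ℕ → Bool),
    A 0 = 0 ∧ A K = T ∧ (∀ m, A (m + 1) = A m + b m * (CL m).card) ∧ (∀ m ≤ K, 2 ^ h ∣ A m) ∧
    (∀ t < T, z t < K ∧ A (z t) ≤ t ∧ t < A (z t + 1)) ∧
    (∀ m < K, ∀ t, A m ≤ t → t < A (m + 1) → t < T ∧ z t = m) ∧
    (∀ t < T, ∃ γ ∈ CL (z t), ∀ u : ℕ, w t u = ext γ (u : ℤ)) ∧
    (∀ m < K, ∀ γ ∈ CL m, ((Finset.range T).filter (fun t => z t = m ∧
      ∀ u : Fin (N m), w t u = γ u)).card = b m)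

/-- B9a. Choice of the numbers: `a m > 0`; `C = 16 (h+2) + ∑_{m<K} 2^h a m`, `e = C (h+1)`,
`b m = 2^h (2e / (2^h a m) + 1)`; then `2e ≤ b m a m ≤ 2e + 2^h a m ≤ 4e`, and
`b m N 2^N ≤ b m 2^(m+4) a m ≤ 2^(m+6) e`. -/
def S_choose : Prop := ∀ (K h : ℕ) (N a : ℕ → ℕ), (∀ m < K, 1 ≤ N m ∧ N m * 2 ^ N m ≤ 2 ^ (m + 4) * a m) →
  ∃ (C : ℕ) (b : ℕ → ℕ), 1 ≤ C ∧ 16 * (h + 2) ≤ C * (h + 1) ∧
    ∀ m < K, 2 ^ h ∣ b m ∧ 0 < b m ∧ 2 * (C * (h + 1)) ≤ b m * a m ∧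
      b m * (N m * 2 ^ N m) ≤ 2 ^ (m + 6) * (C * (h + 1))

/-- B9b. Total length of the separators.  By S_rulsum
`lpos T - ∑ N ≤ h + 2 + ∑_{t<T} (4 clog N (z t) + 5) = h + 2 + ∑_{m<K} b m cl m (4 clog N m + 5)
≤ h + 2 + ∑_m b m 2^{N m} N m / 2^{2m+12} ≤ h + 2 + ∑_m 2^{-m-6} e ≤ e/16 + e/32 ≤ e/8`. -/
def S_sepb : Prop := ∀ (h K T e : ℕ) (N b A z cl : ℕ → ℕ),
  A 0 = 0 → A K = T → (∀ m, A (m + 1) = A m + b m * cl m) →
  (∀ t < T, z t < K ∧ A (z t) ≤ t ∧ t < A (z t + 1)) →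
  (∀ m < K, ∀ t, A m ≤ t → t < A (m + 1) → t < T ∧ z t = m) →
  (∀ m < K, cl m ≤ 2 ^ N m ∧ b m * (N m * 2 ^ N m) ≤ 2 ^ (m + 6) * e ∧
    2 ^ (2 * m + 12) * (4 * Nat.clog 2 (N m) + 5) ≤ N m) →
  16 * (h + 2) ≤ e →
  8 * lpos h (fun t => N (z t)) (rul h (fun t => N (z t))) T ≤
    8 * ∑ t ∈ Finset.range T, N (z t) + e

/-- B9c. Selection of special positions: the set of pairs `(t, y)`, `t < T`, `z t = m`, `y` available in the word of
`t`, has `∑_{γ ∈ CL m} b m |av m γ| ≥ 2 e` elements. -/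
def S_qsel : Prop := ∀ (K T e : ℕ) (N b z : ℕ → ℕ) (w : ℕ → ℕ → Bool)
  (CL : ∀ m : ℕ, Finset (Fin (N m) → Bool)) (av : ∀ m : ℕ, (Fin (N m) → Bool) → Finset (Fin (N m))),
  (∀ t < T, ∃ γ ∈ CL (z t), ∀ u : ℕ, w t u = ext γ (u : ℤ)) →
  (∀ m < K, ∀ γ ∈ CL m, ((Finset.range T).filter (fun t => z t = m ∧
      ∀ u : Fin (N m), w t u = γ u)).card = b m) →
  (∀ m < K, 2 * e ≤ b m * ∑ γ ∈ CL m, (av m γ).card) →
  ∃ tx yx : ℕ → ℕ → ℕ, ∀ m < K,
    (∀ x < 2 * e, tx m x < T ∧ z (tx m x) = m ∧ ∃ γ ∈ CL m, (∀ u : ℕ, w (tx m x) u = ext γ (u : ℤ)) ∧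
      ∃ hy : yx m x < N m, (⟨yx m x, hy⟩ : Fin (N m)) ∈ av m γ) ∧
    (∀ x x', x < 2 * e → x' < 2 * e → tx m x = tx m x' → yx m x = yx m x' → x = x')

/-- B9. One level.  Proof.
Let `N m = n j m`, `N₁` from `S_count`; require `N₁ m ≤ N m`, `2^(2m+12) (4 clog N m + 5) ≤ N m`, `1 ≤ N m`.
Choose `h ≡ 2 (mod 4)` with `h > (f i).h` for `i < j`, `h ≥ 2 n j' m' + j + 20` for all `j' ≤ j`, `m' < k j'`.
`CL m = cleanW f j (N m)`, `a m = ∑_{γ ∈ CL m} |avail γ| ≥ N m 2^{N m} / 2^{m+4} > 0`, so `CL m ≠ ∅`,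
`|CL m| ≤ 2^{N m}`.  Take `C, b` from S_choose, `e = C (h+1)`, and `T, A, z, w` from S_dist,
`V = lay h T (N ∘ z) (rul h (N ∘ z)) w`; `c t = lpos t`, `s = lpos T`, `len = s + e`.
`Basic`: S_lay, S_laynorun (pieces end in `false` by `Clean`; `N m ≤ h`; `rul ≤ h - 2`), `len ≥ e ≥ 16 (h+2)`.
`nest`: S_laynest for each `i < j` (`rul % 4 = 0` since `(h - 2) % 4 = 0`; the cut hypothesis is `Clean`).
Special positions: `tx, yx` from S_qsel with `av m γ = avail f j m γ`;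
`q m x = lpos (tx m x) + yx m x`; injective by disjointness of segments.  `q_ones`, `q_free`: from `avail`
(`q_free`: by `nest` the occurrence lies in a piece, which is `t_x` if it covers `q m x`).  `gap`: S_laygap with
`A = A m`, `B = A (m+1)`.  `slot`: the block of `s + u` starts at `s + (u / (h+1)) (h+1)`.
`sep`: S_sepb.
`mult`: a segment of zone `m` with word `γ`: `γ ∈ CL m` and at most `b m` of them (S_dist).
`len_ge`: `len ≥ h`-bound. -/
def S_level : Prop := ∃ N₀ : ℕ → ℕ, ∀ (k : ℕ → ℕ) (n : ℕ → ℕ → ℕ), (∀ j, 2 ≤ k j) →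
  (∀ j m, m < k j → N₀ m ≤ n j m) → ∀ (j : ℕ) (f : ℕ → Lvl), (∀ i < j, GoodLvl k n i f (f i)) →
  ∃ L, GoodLvl k n j f L

end Pool.Agent.Lib.MP_8d5788_an
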