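import Mathlib

set_option autoImplicit false
open MeasureTheory

/-!
# MP_8d5788_an (Austin): finitary isomorphism to an i.i.d. process is not a Borel condition.
Definitions.  `Bool` is used as the field with two elements: `+` is xor (Mathlib's `BooleanRing Bool`).
-/

namespace Pool.Agent.Lib.MP_8d5788_an

/-- display alphabet: `(g, t', flag, e₁, e₂)` (32 symbols) -/
abbrev Sym := Bool × Bool × Bool × Bool × Bool

instance : BorelSpace Sym := Prod.borelSpace
instance : SecondCountableTopology Sym := inferInstance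

/-- left shift -/
def sh {α : Type*} (x : ℤ → α) : ℤ → α := fun n => x (n + 1)

/-- the fair coin -/
noncomputable def coin : Measure Bool := (PMF.uniformOfFintype Bool).toMeasure

instance : IsProbabilityMeasure coin := by unfold coin; infer_instance

/-- i.i.d. fair coins indexed by `ℤ` -/
noncomputable def lam : Measure (ℤ → Bool) := Measure.infinitePi (fun _ : ℤ => coin)

instance : IsProbabilityMeasure lam := by unfold lam; infer_instance

/-- the i.i.d. process with four equally likely symbols -/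
noncomputable def lam2 : Measure (ℤ → Bool × Bool) := Measure.infinitePi (fun _ : ℤ => coin.prod coin)

instance : IsProbabilityMeasure lam2 := by unfold lam2; infer_instance

/-- finitary isomorphism, in the form of the frozen statement, for arbitrary alphabets -/
def FinIso {α β : Type} [TopologicalSpace α] [MeasurableSpace α] [TopologicalSpace β] [MeasurableSpace β]
    (μ : Measure (ℤ → α)) (ν : Measure (ℤ → β)) : Prop :=
  ∃ (X₀ : Set (ℤ → α)) (Y₀ : Set (ℤ → β)) (φ : (ℤ → α) → (ℤ → β)) (ψ : (ℤ → β) → (ℤ → α)),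
    μ X₀ᶜ = 0 ∧ ν Y₀ᶜ = 0 ∧
    Set.MapsTo φ X₀ Y₀ ∧ Set.MapsTo ψ Y₀ X₀ ∧
    Set.LeftInvOn ψ φ X₀ ∧ Set.LeftInvOn φ ψ Y₀ ∧
    ContinuousOn φ X₀ ∧ ContinuousOn ψ Y₀ ∧
    (∀ x ∈ X₀, φ (fun n => x (n + 1)) = fun n => φ x (n + 1)) ∧
    (∀ y ∈ Y₀, ψ (fun n => y (n + 1)) = fun n => ψ y (n + 1)) ∧
    Measure.map φ μ = ν ∧ Measure.map ψ ν = μ

/-- the word `w` of length `l` occurs in `g` at `a`, preceded by `false` -/
def OccW (w : ℕ → Bool) (l : ℕ) (g : ℤ → Bool) (a : ℤ) : Prop :=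
  g (a - 1) = false ∧ ∀ u : ℕ, u < l → g (a + u) = w u

/-- the word `γ` of length `n` ends in `false` and none of the words `V i` (`i < j`, lengths `len i`)
is cut by the right end of `γ`: a start of `V i` inside `γ` (at the left end or after a `false`) whose
end would be outside has a mismatch inside `γ`. -/
def Clean (len : ℕ → ℕ) (V : ℕ → ℕ → Bool) (j n : ℕ) (γ : ℕ → Bool) : Prop :=
  γ (n - 1) = false ∧ ∀ i < j, ∀ b < n, (b = 0 ∨ γ (b - 1) = false) → n < b + len i →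
    ∃ u, b + u < n ∧ γ (b + u) ≠ V i u

/-- The word system.  `k j` = number of zones of the marker word `V j`, `n j m` = length of the pieces
of zone `m`.  `V j` has length `len j = s j + e j`; its last `e j` positions are the slots; there are
`T j` pieces, the `t`-th starts at `c j t` and lies in zone `z j t`; `q j m i` (`m < k j`,
`i < 2 * e j`) are the special positions of zone `m`. -/
structure Sys (k : ℕ → ℕ) (n : ℕ → ℕ → ℕ) where
  h : ℕ → ℕ
  len : ℕ → ℕ
  s : ℕ → ℕ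
  e : ℕ → ℕ
  V : ℕ → ℕ → Bool
  q : ℕ → ℕ → ℕ → ℕ
  T : ℕ → ℕ
  c : ℕ → ℕ → ℕ
  z : ℕ → ℕ → ℕ
  b : ℕ → ℕ → ℕ
  k_ge : ∀ j, 2 ≤ k j
  n_pos : ∀ j m, m < k j → 1 ≤ n j m
  len_eq : ∀ j, len j = s j + e j
  e_ge : ∀ j, 2 ≤ e j
  /-- the start run has length exactly `h j + 1` -/
  start_ones : ∀ j u, u ≤ h j → V j u = true
  start_zero : ∀ j, V j (h j + 1) = false
  h_lt : ∀ j, h j + 1 < s j
  last : ∀ j, V j (len j - 1) = false
  /-- no run of `h j + 1` ones except at the start -/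
  norun : ∀ j b, 1 ≤ b → b + h j < len j → ∃ u ≤ h j, V j (b + u) = false
  h_mono : ∀ i j, i < j → h i < h j
  h_ge : ∀ j, j + 10 ≤ h j
  len_ge : ∀ j' j m, j' ≤ j → m < k j' → 2 * n j' m + j + 10 ≤ len j
  zone_lt : ∀ j t, t < T j → z j t < k j
  piece_left : ∀ j t, t < T j → h j + 2 ≤ c j t
  piece_right : ∀ j t, t < T j → c j t + n j (z j t) ≤ s j
  piece_prev : ∀ j t, t < T j → V j (c j t - 1) = false
  piece_disj : ∀ j t t', t < t' → t' < T j → c j t + n j (z j t) ≤ c j t'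
  piece_clean : ∀ j t, t < T j → Clean len V j (n j (z j t)) (fun u => V j (c j t + u))
  /-- a start of `V i` inside `V j` (`i < j`) without visible mismatch is an occurrence inside a piece -/
  nest : ∀ i j p, i < j → 1 ≤ p → p < len j → V j (p - 1) = false →
    (∀ u, u < len i → p + u < len j → V j (p + u) = V i u) →
    ∃ t < T j, c j t ≤ p ∧ p + len i ≤ c j t + n j (z j t)
  /-- special positions of zone `m` lie in pieces of zone `m` -/
  q_piece : ∀ j m i, m < k j → i < 2 * e j →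
    ∃ t < T j, z j t = m ∧ c j t ≤ q j m i ∧ q j m i < c j t + n j m
  q_inj : ∀ j m i i', m < k j → i < 2 * e j → i' < 2 * e j → q j m i = q j m i' → i = i'
  /-- special positions are not covered by occurrences of `V i`, `i < j`, inside `V j` -/
  q_free : ∀ j m x i p, m < k j → x < 2 * e j → i < j → 1 ≤ p → V j (p - 1) = false →
    p + len i ≤ len j → (∀ u, u < len i → V j (p + u) = V i u) → ¬ (p ≤ q j m x ∧ q j m x < p + len i)
  /-- `m` ones precede a special position of zone `m` -/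
  q_ones : ∀ j m i u, m < k j → i < 2 * e j → u < m → u < q j m i ∧ V j (q j m i - 1 - u) = true
  /-- long runs of ones to the right of a special position of zone `m`, not far away -/
  gap : ∀ j m i w, m < k j → i < 2 * e j → n j m ≤ 2 ^ w → 4 * w + 2 ≤ h j →
    ∃ y, q j m i < y ∧ y ≤ q j m i + 2 ^ w * (4 * w + 1) ∧ y + 4 * w ≤ len j ∧
      ∀ u < 4 * w, V j (y + u) = true
  /-- slots lie in blocks `1^{h j} 0` -/
  slot : ∀ j u, u < e j → ∃ y, y ≤ s j + u ∧ s j + u ≤ y + h j ∧ y + h j < len j ∧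
    ∀ v < h j, V j (y + v) = true
  /-- few positions outside the pieces -/
  sep : ∀ j, 8 * s j ≤ 8 * ∑ t ∈ Finset.range (T j), n j (z j t) + e j
  /-- every word is the word of at most `b j m` pieces of zone `m` -/
  mult : ∀ j m, m < k j → ∀ γ : Fin (n j m) → Bool,
    ((Finset.range (T j)).filter (fun t => z j t = m ∧
      ∀ u : Fin (n j m), V j (c j t + u) = γ u)).card ≤ b j m
  b_le : ∀ j m, m < k j → b j m * (n j m * 2 ^ (n j m)) ≤ 2 ^ (m + 6) * e j

namespace Sys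

variable {k : ℕ → ℕ} {n : ℕ → ℕ → ℕ} (S : Sys k n)

/-- occurrence of the marker word of level `j` -/
def Occ (g : ℤ → Bool) (j : ℕ) (a : ℤ) : Prop := OccW (S.V j) (S.len j) g a

/-- the active occurrences -/
def occs (J : Set ℕ) (g : ℤ → Bool) : Set (ℕ × ℤ) := {p | p.1 ∈ J ∧ S.Occ g p.1 p.2}

/-- `y` is the target `p.2.2` of the occurrence `(p.1, p.2.1)` -/
def Tgt (M : ℕ → ℕ) (O : Set (ℕ × ℤ)) (y : ℤ) (p : ℕ × ℤ × ℕ) : Prop :=
  (p.1, p.2.1) ∈ O ∧ p.2.2 < 2 * S.e p.1 ∧ y = p.2.1 + S.q p.1 (M p.1) p.2.2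

/-- `y` is the slot `p.2.2` of the occurrence `(p.1, p.2.1)` -/
def Slt (O : Set (ℕ × ℤ)) (y : ℤ) (p : ℕ × ℤ × ℕ) : Prop :=
  (p.1, p.2.1) ∈ O ∧ p.2.2 < S.e p.1 ∧ y = p.2.1 + S.s p.1 + p.2.2

/-- the sum over the group of the target, without the target -/
def grp (M : ℕ → ℕ) (t : ℤ → Bool) (p : ℕ × ℤ × ℕ) : Bool :=
  ∑ m ∈ (Finset.range (k p.1)).erase (M p.1), t (p.2.1 + S.q p.1 m p.2.2)

open Classical in
/-- displayed `t`-symbol -/
noncomputable def tp (M : ℕ → ℕ) (O : Set (ℕ × ℤ)) (t : ℤ → Bool) (y : ℤ) : Bool :=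
  if hp : ∃ p, S.Tgt M O y p then S.grp M t hp.choose else t y

open Classical in
/-- displayed `e`-symbol -/
noncomputable def ep (M : ℕ → ℕ) (O : Set (ℕ × ℤ)) (t : ℤ → Bool) (y : ℤ) : Bool × Bool × Bool :=
  if hp : ∃ p, S.Slt O y p then
    (true, t (hp.choose.2.1 + S.q hp.choose.1 (M hp.choose.1) (2 * hp.choose.2.2)),
      t (hp.choose.2.1 + S.q hp.choose.1 (M hp.choose.1) (2 * hp.choose.2.2 + 1)))
  else (false, false, false)

/-- the coding map -/
noncomputable def Phi (J : Set ℕ) (M : ℕ → ℕ) (g t : ℤ → Bool) : ℤ → Sym :=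
  fun y => (g y, S.tp M (S.occs J g) t y, S.ep M (S.occs J g) t y)

/-- the law of the process attached to `J` -/
noncomputable def mu (J : Set ℕ) : Measure (ℤ → Sym) :=
  Measure.map (fun p : (ℤ → Bool) × (ℤ → Bool) => S.Phi J (fun _ => 0) p.1 p.2) (lam.prod lam)

open Classical in
/-- the inverse coding map: the `t`-symbol -/
noncomputable def tinv (J : Set ℕ) (M : ℕ → ℕ) (x : ℤ → Sym) (y : ℤ) : Bool :=
  if hp : ∃ p, S.Tgt M (S.occs J (fun z => (x z).1)) y p then
    (if hp.choose.2.2 % 2 = 0 then (x (hp.choose.2.1 + S.s hp.choose.1 + (hp.choose.2.2 / 2 : ℕ))).2.2.2.1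
      else (x (hp.choose.2.1 + S.s hp.choose.1 + (hp.choose.2.2 / 2 : ℕ))).2.2.2.2)
  else (x y).2.1

end Sys

/-- no run of `4 w` ones shortly after `y` -/
def NoRun (g : ℤ → Bool) (y : ℤ) (w : ℕ) : Prop :=
  ∀ v : ℤ, y < v → v ≤ y + 2 ^ w * (4 * w + 1) → ∃ u : ℕ, u < 4 * w ∧ g (v + u) = false

/-- the good sequences -/
def Good : Set (ℤ → Bool) :=
  {g | (∀ y : ℤ, ∃ v < y, g v = false) ∧ ∀ (y : ℤ) (w₀ : ℕ), ∃ w ≥ w₀, NoRun g y w}

/-- extension of a word by `false` -/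
def ext {n : ℕ} (γ : Fin n → Bool) (y : ℤ) : Bool :=
  if hy : 0 ≤ y ∧ y < n then γ ⟨y.toNat, by omega⟩ else false

namespace Sys

variable {k : ℕ → ℕ} {n : ℕ → ℕ → ℕ} (S : Sys k n)

/-- active occurrences of levels `< j` inside the word `γ` -/
def inocc (J : Set ℕ) (j : ℕ) {N : ℕ} (γ : Fin N → Bool) : Set (ℕ × ℤ) :=
  {p | p.1 < j ∧ p.1 ∈ J ∧ 0 ≤ p.2 ∧ p.2 + S.len p.1 ≤ N ∧ S.Occ (ext γ) p.1 p.2}

/-- local display word -/
noncomputable def LD (J : Set ℕ) (j : ℕ) {N : ℕ} (γ u : Fin N → Bool) : Fin N → Sym :=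
  fun y => (γ y, S.tp (fun _ => 0) (S.inocc J j γ) (ext u) y, S.ep (fun _ => 0) (S.inocc J j γ) (ext u) y)

open Classical in
/-- the level-`j` modification of `t` in an occurrence of `V j` at `0` -/
noncomputable def lvl (j : ℕ) (t : ℤ → Bool) (y : ℤ) : Bool :=
  if hp : ∃ x, x < 2 * S.e j ∧ y = S.q j 0 x then
    ∑ m ∈ (Finset.range (k j)).erase 0, t (S.q j m hp.choose) else t y

end Sys

/-- cylinder -/
def cyl {α : Type*} {N : ℕ} (w : Fin N → α) : Set (ℤ → α) := {x | ∀ y : Fin N, x (y : ℤ) = w y}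

/-- position `y` is determined by the window word `w` -/
def Det {α β : Type*} (X : Set (ℤ → α)) (φ : (ℤ → α) → (ℤ → β)) {N : ℕ} (w : Fin N → α) (y : Fin N) : Prop :=
  ∀ x ∈ X, ∀ x' ∈ X, x ∈ cyl w → x' ∈ cyl w → φ x (y : ℤ) = φ x' (y : ℤ)

open Classical in
/-- number of undetermined positions -/
noncomputable def und {α β : Type*} (X : Set (ℤ → α)) (φ : (ℤ → α) → (ℤ → β)) {N : ℕ} (w : Fin N → α) : ℕ :=
  (Finset.univ.filter (fun y : Fin N => ¬ Det X φ w y)).card

end Pool.Agent.Lib.MP_8d5788_an
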