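import Pool.Agent.Lib.MP_8d5788_an.Defs

set_option autoImplicit false
open MeasureTheory

/-!
# MP_8d5788_an: statements of the pieces (docstrings = complete proofs)
-/

namespace Pool.Agent.Lib.MP_8d5788_an

/-! ### Tools -/

/-- T1. Product measure of a finite cylinder: `infinitePi_pi` with `t z = {c z}`, and `coin {b} = 1/2`. -/
def S_lamcyl : Prop := ∀ (s : Finset ℤ) (c : ℤ → Bool),
  lam {g | ∀ z ∈ s, g z = c z} = (2⁻¹ : ENNReal) ^ s.card

/-- T2. Same for `lam2`; `(coin.prod coin) {b} = 1/4`. -/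
def S_lam2cyl : Prop := ∀ (s : Finset ℤ) (c : ℤ → Bool × Bool),
  lam2 {g | ∀ z ∈ s, g z = c z} = (4⁻¹ : ENNReal) ^ s.card

/-- T3. Shift invariance (uniqueness of the product measure, `eq_infinitePi`). -/
def S_lamsh : Prop := Measure.map (sh : (ℤ → Bool) → (ℤ → Bool)) lam = lam

/-- T4. A continuous surjective additive endomorphism `R` of the compact group `ℤ → Bool` preserves
`lam`.  Proof: `lam` is translation invariant (`infinitePi_map_pi` with `f i x = a i + x` and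
`coin.map (b + ·) = coin`); if `a = R b` then `map (a + ·) (map R lam) = map R (map (b + ·) lam) = map R lam`,
so `map R lam` is a translation invariant probability measure; both are additive Haar measures
(`isOpenPosMeasure_of_addLeftInvariant_of_compact` for positivity on open sets), so they are equal by
`Measure.isAddHaarMeasure_eq_of_isProbabilityMeasure`. -/
def S_haar : Prop := ∀ R : (ℤ → Bool) →+ (ℤ → Bool), Continuous R → Function.Surjective R →
  Measure.map R lam = lam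

/-- T5. Zipping two coin sequences (`eq_infinitePi`: for a box `t`, which must be checked for all
measurable `t z ⊆ Bool × Bool`; it is enough to use `Measure.pi`-type uniqueness: the sets `t z` are
finite unions of singletons; or prove it with the measurable equivalence). -/
def S_zip : Prop :=
  Measure.map (fun (p : (ℤ → Bool) × (ℤ → Bool)) (z : ℤ) => (p.1 z, p.2 z)) (lam.prod lam) = lam2

/-- T6. Coordinatewise local functions are continuous. -/
def S_loccont : Prop := ∀ (α β : Type) [TopologicalSpace α] [DiscreteTopology α] [TopologicalSpace β]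
  [DiscreteTopology β] (f : (ℤ → α) → (ℤ → β)) (x : ℤ → α),
  (∀ y : ℤ, ∃ W : ℕ, ∀ x' : ℤ → α, (∀ v : ℤ, |v - y| ≤ W → x' v = x v) → f x' y = f x y) →
  ContinuousAt f x

/-! ### Occurrences -/

/-- O1. Two occurrences of the same level are disjoint or equal.  Proof: let `p = a' - a ≥ 1`, `p < len j`.
If `p + h j < len j`, `norun` gives `u ≤ h j` with `V j (p+u) = false`, but `g (a' + u) = V j u = true`
(`start_ones`).  Otherwise `u = len j - 1 - p ≤ h j - 1` and `V j (len j - 1) = false` (`last`) while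
`g (a' + u) = V j u = true`. -/
def S_same : Prop := ∀ (k : ℕ → ℕ) (n : ℕ → ℕ → ℕ) (S : Sys k n) (g : ℤ → Bool) (j : ℕ) (a a' : ℤ),
  S.Occ g j a → S.Occ g j a' → a ≤ a' → a' < a + S.len j → a = a'

/-- O2. An occurrence of `V i` meeting an occurrence of `V j`, `i < j`, lies inside one of its pieces.
Proof.  If `a' > a` use the field `nest` with `p = a' - a`.  If `a' = a`: `V i (h i + 1) = false`
(`start_zero`) but `V j (h i + 1) = true` as `h i < h j`.  If `a' < a`: let `w = a' + len i - 1 - a ≥ 0`;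
`g (a + w) = V i (len i - 1) = false`, so `w ≥ h j + 1` (`start_ones` of `j`); then with `o = a - a' ≥ 1`
`norun` of `i` at `b = o` (`o + h i < len i`) gives `u ≤ h i` with `V i (o+u) = false`, but
`g (a + u) = V j u = true`. -/
def S_nest : Prop := ∀ (k : ℕ → ℕ) (n : ℕ → ℕ → ℕ) (S : Sys k n) (g : ℤ → Bool) (i j : ℕ) (a a' : ℤ),
  i < j → S.Occ g i a' → S.Occ g j a → a' < a + S.len j → a < a' + S.len i →
  ∃ t < S.T j, a + S.c j t ≤ a' ∧ a' + S.len i ≤ a + S.c j t + n j (S.z j t)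

/-- O3. Special positions of level `j` are in no occurrence of `V i`, `i < j`.  Proof: the occurrence of
`V i` meets the occurrence of `V j` at that position (`q j m x < s j ≤ len j` by `q_piece`,
`piece_right`), hence lies inside a piece (O2), so `p = a' - a ≥ c j t ≥ 1` is an occurrence of `V i`
inside `V j`; use `q_free`. -/
def S_qfree : Prop := ∀ (k : ℕ → ℕ) (n : ℕ → ℕ → ℕ) (S : Sys k n) (g : ℤ → Bool) (i j m x : ℕ) (a a' : ℤ),
  i < j → S.Occ g i a' → S.Occ g j a → m < k j → x < 2 * S.e j →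
  ¬ (a' ≤ a + S.q j m x ∧ a + S.q j m x < a' + S.len i)

/-- O4. Slots of level `j` are in no occurrence of `V i`, `i < j` (O2 and `piece_right`). -/
def S_sfree : Prop := ∀ (k : ℕ → ℕ) (n : ℕ → ℕ → ℕ) (S : Sys k n) (g : ℤ → Bool) (i j u : ℕ) (a a' : ℤ),
  i < j → S.Occ g i a' → S.Occ g j a → u < S.e j →
  ¬ (a' ≤ a + S.s j + u ∧ a + S.s j + u < a' + S.len i)

/-- O5. Uniqueness of special positions.  Proof: by O3 the levels agree (each special position of a
level `i` occurrence lies in that occurrence), by O1 `a = a'`; then `q j m x = q j m' x'` lies in a piece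
of zone `m` and in a piece of zone `m'`; by `piece_disj` they are the same piece, so `m = m'`; `q_inj`. -/
def S_quniq : Prop := ∀ (k : ℕ → ℕ) (n : ℕ → ℕ → ℕ) (S : Sys k n) (g : ℤ → Bool) (i j m m' x x' : ℕ)
  (a a' : ℤ), S.Occ g j a → S.Occ g i a' → m < k j → m' < k i → x < 2 * S.e j → x' < 2 * S.e i →
  a + S.q j m x = a' + S.q i m' x' → i = j ∧ a' = a ∧ m' = m ∧ x' = x

/-- O6. Uniqueness of slots (O4, O1). -/
def S_suniq : Prop := ∀ (k : ℕ → ℕ) (n : ℕ → ℕ → ℕ) (S : Sys k n) (g : ℤ → Bool) (i j u u' : ℕ)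
  (a a' : ℤ), S.Occ g j a → S.Occ g i a' → u < S.e j → u' < S.e i →
  a + S.s j + u = a' + S.s i + u' → i = j ∧ a' = a ∧ u' = u

/-! ### The coding map -/

/-- P1. Value of `tp` at a target (uniqueness O5 of `p`, applied to the zone `M`). -/
def S_tp : Prop := ∀ (k : ℕ → ℕ) (n : ℕ → ℕ → ℕ) (S : Sys k n) (g : ℤ → Bool) (M : ℕ → ℕ) (O : Set (ℕ × ℤ))
  (t : ℤ → Bool) (y : ℤ) (p : ℕ × ℤ × ℕ), (∀ o ∈ O, S.Occ g o.1 o.2 ∧ M o.1 < k o.1) → S.Tgt M O y p →
  S.tp M O t y = S.grp M t p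

/-- P2. Value of `ep` at a slot (uniqueness O6). -/
def S_ep : Prop := ∀ (k : ℕ → ℕ) (n : ℕ → ℕ → ℕ) (S : Sys k n) (g : ℤ → Bool) (M : ℕ → ℕ) (O : Set (ℕ × ℤ))
  (t : ℤ → Bool) (y : ℤ) (p : ℕ × ℤ × ℕ), (∀ o ∈ O, S.Occ g o.1 o.2) → S.Slt O y p →
  S.ep M O t y = (true, t (p.2.1 + S.q p.1 (M p.1) (2 * p.2.2)), t (p.2.1 + S.q p.1 (M p.1) (2 * p.2.2 + 1)))

/-- P3. The inverse.  If `y` is not a target, `tp = t y`.  If `y` is the target `p = (j, a, x)`, then
`u = x / 2 < e j` is a slot of the same occurrence at `a + s j + u`, and P2 gives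
`t (a + q j (M j) (2u))`, `t (a + q j (M j) (2u+1))` there; one of them is `t y`. -/
def S_inv : Prop := ∀ (k : ℕ → ℕ) (n : ℕ → ℕ → ℕ) (S : Sys k n) (J : Set ℕ) (M : ℕ → ℕ),
  (∀ j ∈ J, M j < k j) → ∀ g t : ℤ → Bool, S.tinv J M (S.Phi J M g t) = t

/-- P4. Equivariance of `Phi`. -/
def S_phish : Prop := ∀ (k : ℕ → ℕ) (n : ℕ → ℕ → ℕ) (S : Sys k n) (J : Set ℕ) (M : ℕ → ℕ),
  (∀ j ∈ J, M j < k j) → ∀ g t : ℤ → Bool, S.Phi J M (sh g) (sh t) = sh (S.Phi J M g t)

/-- P5. Equivariance of `tinv` (uniqueness O5 of targets for the `g`-track of `x`). -/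
def S_tinvsh : Prop := ∀ (k : ℕ → ℕ) (n : ℕ → ℕ → ℕ) (S : Sys k n) (J : Set ℕ) (M : ℕ → ℕ),
  (∀ j ∈ J, M j < k j) → ∀ x : ℤ → Sym, S.tinv J M (sh x) = sh (S.tinv J M x)

/-- P6. Measurability of `Phi` and `tinv`.  Proof: `measurable_pi_iff`; for fixed `y` the set of `(g,t)`
with `tp = true` is the countable union over `p` of `{Tgt p} ∩ {grp t p = true}` (by P1) and
`{no target} ∩ {t y = true}`; `{(g,t) | Tgt M (occs J g) y p}` is measurable (countable intersection of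
coordinate conditions).  Similarly for `ep`, `tinv` (for `tinv` use O5 for uniqueness of `p`). -/
def S_meas : Prop := ∀ (k : ℕ → ℕ) (n : ℕ → ℕ → ℕ) (S : Sys k n) (J : Set ℕ) (M : ℕ → ℕ),
  (∀ j ∈ J, M j < k j) →
  Measurable (fun p : (ℤ → Bool) × (ℤ → Bool) => S.Phi J M p.1 p.2) ∧ Measurable (S.tinv J M)

/-- P7. The law does not depend on `M`.  Fix `g`.  Define `R : (ℤ → Bool) →+ (ℤ → Bool)`:
at `y = a + q j 0 x` (active occurrence `(j,a)`, `x < 2 e j`, `M j ≠ 0`): `R t y = t (a + q j (M j) x)`;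
at `y = a + q j (M j) x` (`M j ≠ 0`): `R t y = ∑ m ∈ (range (k j)).erase (M j), t (a + q j m x)`;
elsewhere `R t y = t y`.  (Well defined by O5.)  `R` is additive, continuous (each coordinate depends on
finitely many coordinates) and surjective (given `s`, take `t (q (M j) x) = s (q 0 x)`,
`t (q m x) = s (q m x)` for `m ≠ 0, M j`, `t (q 0 x) = ∑ m ∈ (range (k j)).erase 0, s (q m x)`).
One checks `Phi J M g t = Phi J 0 g (R t)`: at a slot, `(R t) (q 0 x) = t (q (M j) x)`; at `q 0 x`: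
`∑ m ≠ 0, (R t)(q m x) = ∑_{m ≠ M} t (q m x) + ∑_{m ≠ 0, M} t (q m x) = t (q 0 x)`, which is the
`M`-display at `q 0 x` (not an `M`-target); at `q (M j) x`: both displays are `∑_{m ≠ M} t (q m x)`.
By `S_haar` the laws of `Phi J M g ·` and `Phi J 0 g ·` under `lam` agree for every `g`; by Fubini
(`Measure.ext`, `Measure.map_apply`, `Measure.prod_apply`) the laws under `lam.prod lam` agree. -/
def S_law : Prop := ∀ (k : ℕ → ℕ) (n : ℕ → ℕ → ℕ) (S : Sys k n) (J : Set ℕ) (M : ℕ → ℕ),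
  (∀ j ∈ J, M j < k j) →
  Measure.map (fun p : (ℤ → Bool) × (ℤ → Bool) => S.Phi J M p.1 p.2) (lam.prod lam) = S.mu J

/-- P8. `mu J` is a shift invariant probability measure. -/
def S_mush : Prop := ∀ (k : ℕ → ℕ) (n : ℕ → ℕ → ℕ) (S : Sys k n) (J : Set ℕ),
  IsProbabilityMeasure (S.mu J) ∧ Measure.map (sh : (ℤ → Sym) → (ℤ → Sym)) (S.mu J) = S.mu J

/-- P9. Continuity.  For fixed `(g,t)` and `y`, `y` is a target of at most one `p` for `J = univ` (O5) and
a slot of at most one `p`; so the `y`-coordinate of `Phi J 0 g t` depends only on whether two given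
levels belong to `J`; hence `x ↦ Phi (J x) 0 g t` is continuous at every `x` for every `(g,t)`.  For a bounded
continuous `F`, `∫ F d mu (J x) = ∫ F (Phi (J x) 0 g t) d(lam.prod lam)` is continuous in `x` by dominated
convergence (`ℕ → ℕ` is first countable). -/
def S_mucont : Prop := ∀ (k : ℕ → ℕ) (n : ℕ → ℕ → ℕ) (S : Sys k n) (J : (ℕ → ℕ) → Set ℕ),
  (∀ j, IsClopen {x | j ∈ J x}) → ∀ (P : (ℕ → ℕ) → ProbabilityMeasure (ℤ → Sym)),
  (∀ x, (P x : Measure (ℤ → Sym)) = S.mu (J x)) → Continuous P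

/-! ### Sufficiency -/

/-- U1. Targets are locally determined at good sequences.  Proof.  Pick `κ : ℕ` with
`g (y - 1 - κ) = false`, `F ≥ f m` for all `m ≤ κ`, `w₀` with `F ≤ 2 ^ w₀`, and `w ≥ w₀` with `NoRun g y w`.
Let `W = κ + 1 + 2^w (4w+1) + 4w + ∑ j ≤ 4w+2, len j + 1`.  Let `g'` agree with `g` within `W` of `y` and let `y` be
the target `(j, a, x)` for `g'`, `m = M j`.  By `q_ones`, `g' (y - 1 - u) = true` for `u < m`, so `m ≤ κ`
and `n j m ≤ f m ≤ F ≤ 2^w`.  If `4w + 2 ≤ h j`, `gap` gives a run of `4w` ones in `g'` contradicting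
`NoRun g y w`.  So `h j < 4w+2`, `j ≤ 4w+2` (`h_ge`), and the whole occurrence is within `W` of `y`, so it is an
occurrence in `g` as well.  The same argument with `g` and `g'` exchanged (the hypothesis `NoRun g y w`,
`g (y-1-κ) = false` transfers to `g'`) gives the equivalence. -/
def S_tloc : Prop := ∀ (k : ℕ → ℕ) (n : ℕ → ℕ → ℕ) (S : Sys k n) (J : Set ℕ) (M f : ℕ → ℕ),
  (∀ j ∈ J, M j < k j ∧ n j (M j) ≤ f (M j)) → ∀ g ∈ Good, ∀ y : ℤ, ∃ W : ℕ, ∀ g' : ℤ → Bool,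
  (∀ v : ℤ, |v - y| ≤ W → g' v = g v) → ∀ p : ℕ × ℤ × ℕ,
  (S.Tgt M (S.occs J g') y p ↔ S.Tgt M (S.occs J g) y p) ∧
  (S.Tgt M (S.occs J g') y p → ∀ x : ℕ, x < S.len p.1 → |p.2.1 + x - y| ≤ W)

/-- U2. Slots are locally determined at good sequences.  Proof: pick `R : ℕ` with a zero of `g` in
`[y - R, y - 1]` and a zero in `[y, y + R]` (`NoRun g (y-1) w` for some `w ≥ 1` at `v = y`).  If `y` is a slot of
`(j, a)` for `g'` (agreeing with `g` near `y`), `slot` gives a block of `h j` ones starting at a point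
`v₀ ≤ y ≤ v₀ + h j`; the left zero is `< v₀` and the right zero is `≥ v₀ + h j`, so `h j ≤ 2R`, `j ≤ 2R`. -/
def S_sloc : Prop := ∀ (k : ℕ → ℕ) (n : ℕ → ℕ → ℕ) (S : Sys k n) (J : Set ℕ),
  ∀ g ∈ Good, ∀ y : ℤ, ∃ W : ℕ, ∀ g' : ℤ → Bool,
  (∀ v : ℤ, |v - y| ≤ W → g' v = g v) → ∀ p : ℕ × ℤ × ℕ,
  (S.Slt (S.occs J g') y p ↔ S.Slt (S.occs J g) y p) ∧
  (S.Slt (S.occs J g') y p → ∀ x : ℕ, x < S.len p.1 → |p.2.1 + x - y| ≤ W)

/-- U3. `Phi` is continuous at good points (U1, U2, P1, P2, T6; all positions `a + q j m x`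
are `< a + len j`). -/
def S_phicont : Prop := ∀ (k : ℕ → ℕ) (n : ℕ → ℕ → ℕ) (S : Sys k n) (J : Set ℕ) (M f : ℕ → ℕ),
  (∀ j ∈ J, M j < k j ∧ n j (M j) ≤ f (M j)) → ∀ ω : ℤ → Bool × Bool, (fun v => (ω v).1) ∈ Good →
  ContinuousAt (fun ω : ℤ → Bool × Bool => S.Phi J M (fun v => (ω v).1) (fun v => (ω v).2)) ω

/-- U4. `tinv` is continuous at good points (U1, O5, T6). -/
def S_tinvcont : Prop := ∀ (k : ℕ → ℕ) (n : ℕ → ℕ → ℕ) (S : Sys k n) (J : Set ℕ) (M f : ℕ → ℕ),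
  (∀ j ∈ J, M j < k j ∧ n j (M j) ≤ f (M j)) → ∀ x : ℤ → Sym, (fun v => (x v).1) ∈ Good →
  ContinuousAt (S.tinv J M) x

/-- U5. `Good` is measurable, shift invariant and conull.  Null: `lam {g | all g v = true, v < y} = 0`
(`≤ 2^{-N}` for all `N`), and `lam {¬ NoRun g y w} ≤ 2^w (4w+1) 2^{-4w} → 0` as `w → ∞`, so
`lam (⋂ w ≥ w₀, {¬ NoRun g y w}) = 0`; countably many `y`, `w₀`. -/
def S_good : Prop := MeasurableSet Good ∧ lam Goodᶜ = 0 ∧ (∀ g, g ∈ Good ↔ sh g ∈ Good)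

/-- U6. Sufficiency.  `Y₀ = {ω | fst ∘ ω ∈ Good}`, `ψ ω = Phi J M (fst ∘ ω) (snd ∘ ω)`,
`φ x = fun v => ((x v).1, tinv J M x v)`, `X₀ = {x | fst ∘ x ∈ Good ∧ ψ (φ x) = x}` (measurable by P6).
`φ ∘ ψ = id` by P3; `ψ` maps `Y₀` into `X₀`; `φ` maps `X₀` into `Y₀`; `mu J = map ψ lam2` by S_law, S_zip;
`mu J (X₀ᶜ) = lam2 (ψ⁻¹ X₀ᶜ) ≤ lam2 Y₀ᶜ = 0`; `map φ (mu J) = map (φ ∘ ψ) lam2 = lam2`; continuity U3, U4;
equivariance P4, P5. -/
def S_suff : Prop := ∀ (k : ℕ → ℕ) (n : ℕ → ℕ → ℕ) (S : Sys k n) (J : Set ℕ) (M f : ℕ → ℕ),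
  (∀ j ∈ J, M j < k j ∧ n j (M j) ≤ f (M j)) → FinIso (S.mu J) lam2

/-! ### Necessity -/

/-- N1. Display of an isolated window.  `N < len i` for `i ≥ j`.  If `g (-1) = false`, `g = γ`, `t = u` on
`[0,N)` and every occurrence of every level in `g` that meets `[0,N)` lies inside `[0,N)`, then the display of
the window is `LD`.  Proof: occurrences inside the window have level `< j` and coincide with the
occurrences of `ext γ` inside the window; use P1/P2 for `O = occs J g` and for `O = inocc` (all its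
elements are occurrences of `ext γ`, also of `g`). -/
def S_LDwin : Prop := ∀ (k : ℕ → ℕ) (n : ℕ → ℕ → ℕ) (S : Sys k n) (J : Set ℕ) (j N : ℕ)
  (γ u : Fin N → Bool) (g t : ℤ → Bool), (∀ i, j ≤ i → N < S.len i) → g (-1) = false → g ∈ cyl γ → t ∈ cyl u →
  (∀ (i : ℕ) (a : ℤ), S.Occ g i a → a < N → 0 < a + S.len i → 0 ≤ a ∧ a + S.len i ≤ N) →
  S.Phi J (fun _ => 0) g t ∈ cyl (S.LD J j γ u)

/-- N2. Lower bound for the probability of a local display word.  Let `base = {g (-1) = false, g = γ, t = u on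
[0,N)}`, probability `2^{-(2N+1)}`.  If the last hypothesis of N1 fails there is an occurrence `(i,a)`
meeting `[0,N)` and not inside.  Case `a < 0`: with `o = -1-a ≥ 0`, `o < len i`, `V i o = g (-1) = false` so
`o ≥ h i + 1`, and `g = V i` on `[a, -1)` (`o` positions): probability `≤ 2^{-(2N+1)} 2^{-o}`; sum over
`o ≥ h i + 1` and `i` is `≤ 2^{-(2N+1)} ∑_i 2^{-h i} ≤ 2^{-(2N+1)} 2^{-9}` (`h_ge`).  Case `0 ≤ a < N`,
`a + len i > N`, `i < j`: impossible by `Clean`.  Case `0 ≤ a < N`, `i ≥ j`: `g = V i` on `[N, a + len i)`, at least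
`len i - N ≥ N + i + 10` positions, `N` values of `a`: probability
`≤ 2^{-(2N+1)} ∑_i N 2^{-(N+i+10)} ≤ 2^{-(2N+1)} 2^{-9}`.  So `base` minus the bad events has probability
`≥ 2^{-(2N+2)}` and N1 applies. -/
def S_LDprob : Prop := ∀ (k : ℕ → ℕ) (n : ℕ → ℕ → ℕ) (S : Sys k n) (J : Set ℕ) (j N : ℕ)
  (γ u : Fin N → Bool), 1 ≤ N → (∀ i, j ≤ i → 2 * N + i + 10 ≤ S.len i) →
  Clean S.len S.V j N (fun v => ext γ (v : ℤ)) →
  ((2 : ℝ)⁻¹) ^ (2 * N + 2) ≤ (S.mu J).real (cyl (S.LD J j γ u))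

/-- N3. Display of a piece.  Let `V j` occur at `0`, `j ∈ J`, `t'` = piece index, `N` = its length,
`γ v = V j (c + v)`, `u v = lvl j t (c + v)`.  Then `Phi g t` at `c + v` is `LD J j γ u v`.
Proof.  Let `y = c + v`.  Targets: if `y` is a target of `(i, a', x)` with `i < j`: by O2 the occurrence lies in a piece,
which is this piece (`piece_disj`), so it is in `inocc` (shifted by `c`; `V j (c-1) = false` by
`piece_prev`), and the group sum agrees because the positions of its group are not special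
positions of `(j,0)` (O5), where `lvl j t = t`.  If `i = j`: `a' = 0` by O1, and the display is
`∑ m ∈ (range (k j)).erase 0, t (q j m x) = lvl j t y`; `y` is not a target of an element of `inocc` (O5 or O3).
If `i > j`: impossible by O3 (`y` is in the occurrence of `V j` at `0`).  If `y` is no target:
both displays are `t y = lvl j t y` (elements of `inocc` shifted are occurrences in `g`).  Slots: the same, with O4, O6;
`y` is not a slot of `(j,0)` since it is in a piece (`piece_right`). -/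
def S_LDpiece : Prop := ∀ (k : ℕ → ℕ) (n : ℕ → ℕ → ℕ) (S : Sys k n) (J : Set ℕ) (j t' : ℕ)
  (g t : ℤ → Bool), j ∈ J → S.Occ g j 0 → t' < S.T j →
  ∀ v : Fin (n j (S.z j t')), S.Phi J (fun _ => 0) g t ((S.c j t' : ℤ) + (v : ℕ)) =
    S.LD J j (fun v : Fin (n j (S.z j t')) => S.V j (S.c j t' + v))
      (fun v : Fin (n j (S.z j t')) => S.lvl j t ((S.c j t' : ℤ) + (v : ℕ))) v

/-- N4. `LD` is injective (the `γ` are displayed; then the argument of P3 inside the window: `u y` is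
`t'` at a non-target, and is read from a slot of the same inside occurrence at a target). -/
def S_LDinj : Prop := ∀ (k : ℕ → ℕ) (n : ℕ → ℕ → ℕ) (S : Sys k n) (J : Set ℕ) (j N : ℕ)
  (γ γ' u u' : Fin N → Bool), S.LD J j γ u = S.LD J j γ' u' → γ = γ' ∧ u = u'

/-- N5. Few undetermined positions on average.  `X = ⋂ c : ℤ, {x | x (· + c) ∈ X₀}` is conull and
shift invariant, and `φ (x (· + c)) = (φ x) (· + c)` for `x ∈ X` (induction on `c`, for negative `c` apply the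
equivariance to `x (· + c)`).  Let `G K` be the set of `x` such that `φ x' 0 = φ x'' 0` for all `x', x'' ∈ X`
agreeing with `x` on `[-K,K]`: a clopen set (depends on finitely many coordinates), increasing in `K`,
`⋃ K, G K ⊇ X` by continuity.  So `μ (G K)ᶜ → 0`.  Given `ε`, take `K` with `μ (G K)ᶜ ≤ ε/2` and `N ≥ 4K/ε`.
A position `y ∈ [K, N-K)` with `x (· + y) ∈ G K` is determined by the window word of `x`, so
`und (window of x) ≤ 2K + ∑_{y<N} 1[x (· + y) ∉ G K]`, whose integral is `≤ 2K + N ε/2 ≤ ε N` by invariance.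
Finally `∫ und (window of x) dμ = ∑_w und w * μ (cyl w)`. -/
def S_vsmall : Prop := ∀ (α β : Type) [Fintype α] [TopologicalSpace α] [DiscreteTopology α]
  [MeasurableSpace α] [MeasurableSingletonClass α] [TopologicalSpace β] [DiscreteTopology β]
  (μ : Measure (ℤ → α)) [IsProbabilityMeasure μ],
  Measure.map (fun x : ℤ → α => fun n => x (n + 1)) μ = μ → ∀ (X₀ : Set (ℤ → α)) (φ : (ℤ → α) → (ℤ → β)),
  μ X₀ᶜ = 0 → ContinuousOn φ X₀ → (∀ x ∈ X₀, φ (fun n => x (n + 1)) = fun n => φ x (n + 1)) →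
  ∃ X : Set (ℤ → α), μ Xᶜ = 0 ∧
    (∀ x ∈ X, ∀ c : ℤ, (fun n => x (n + c)) ∈ X ∧ φ (fun n => x (n + c)) = fun n => φ x (n + c)) ∧
    ∀ ε : ℝ, 0 < ε → ∃ N₀ : ℕ, ∀ N ≥ N₀, ∑ w : Fin N → α, (und X φ w : ℝ) * μ.real (cyl w) ≤ ε * N

/-- N6. If the outputs at the positions of `D` are constant on (the relevant part of) an event of
probability `≥ 2^{-K}`, then `2 |D| ≤ K`.  Proof: `E ⊆ Phi⁻¹ Xᶜ ∪ Phi⁻¹ (φ⁻¹ C)`, `C = {ω | ∀ y ∈ D, ω y = c y}`;
the first set is null, and `mu J (φ⁻¹ C) = lam2 C = 4^{-|D|}` (`φ` is a.e. measurable since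
`map φ (mu J) ≠ 0`). -/
def S_det : Prop := ∀ (k : ℕ → ℕ) (n : ℕ → ℕ → ℕ) (S : Sys k n) (J : Set ℕ) (X : Set (ℤ → Sym))
  (φ : (ℤ → Sym) → (ℤ → Bool × Bool)), S.mu J Xᶜ = 0 → Measure.map φ (S.mu J) = lam2 →
  ∀ (E : Set ((ℤ → Bool) × (ℤ → Bool))) (K : ℕ) (D : Finset ℤ) (c : ℤ → Bool × Bool),
  (2⁻¹ : ENNReal) ^ K ≤ (lam.prod lam) E →
  (∀ p ∈ E, S.Phi J (fun _ => 0) p.1 p.2 ∈ X → ∀ y ∈ D, φ (S.Phi J (fun _ => 0) p.1 p.2) y = c y) →
  2 * D.card ≤ K

/-- N7. Equidistribution of the piece words `u` over `τ`.  The map `τ ↦ (v ↦ lvl j (ext τ) (c + v))` from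
`Fin (s j) → Bool` to `Fin N → Bool` is additive and surjective (given `u`: if the piece is in a zone `≠ 0`
no special position of zone `0` is in it, take `τ = u` there, `0` elsewhere; if it is in zone `0`, take
`τ = u` at the positions of the piece outside `{q j 0 x}`, `τ (q j 1 x) = u (q j 0 x - c)` for those `x`
with `q j 0 x` in the piece, `0` elsewhere; `k j ≥ 2`), so all fibres have `2^{s j - N}` elements. -/
def S_equi : Prop := ∀ (k : ℕ → ℕ) (n : ℕ → ℕ → ℕ) (S : Sys k n) (j t' : ℕ), t' < S.T j →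
  ∀ F : (Fin (n j (S.z j t')) → Bool) → ℝ,
  ∑ τ : Fin (S.s j) → Bool, F (fun v => S.lvl j (ext τ) ((S.c j t' : ℤ) + (v : ℕ))) =
    2 ^ (S.s j - n j (S.z j t')) * ∑ u : Fin (n j (S.z j t')) → Bool, F u

/-- N8. For every `τ` there are many undetermined positions: with
`w t' = LD J j (word of piece t') (lvl j (ext τ) on piece t')`,
`3 e/8 - 1/2 ≤ ∑_{t' < T j} und X φ (w t')`.
Proof.  `E = {(g,t) | g (-1) = false, g = V j on [0, len j), t = τ on [0, s j) ∖ {q j 0 x}}` has probability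
`2^{-K}`, `K = 1 + len j + s j - 2 e j = 1 + 2 s j - e j` (the `q j 0 x` are `2 e j` distinct positions in
`[0, s j)`).  On `E`, `V j` occurs at `0`, and by N3 the display of piece `t'` is `w t'` (`lvl j t = lvl j (ext τ)` on
`[0, s j)`, as the groups use only positions `q j m x`, `m ≠ 0`, which are in `[0, s j)` and not in
`{q j 0 x}`).  `D` = the determined positions `c j t' + v`, `Det X φ (w t') v`: pieces are disjoint, so
`|D| = ∑ t', (n j (z j t') - und (w t'))`.  The outputs on `D` are constant on `E ∩ Phi⁻¹ X`: shift by `c j t'`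
(equivariance on `X`) and apply `Det`.  N6 gives `2 |D| ≤ 1 + 2 s j - e j`, and `sep`:
`s j ≤ ∑ n + e j / 8`; so `∑ und = ∑ n - |D| ≥ s j - e j/8 - 1/2 - s j + e j/2 = 3 e j/8 - 1/2`. -/
def S_many : Prop := ∀ (k : ℕ → ℕ) (n : ℕ → ℕ → ℕ) (S : Sys k n) (J : Set ℕ) (X : Set (ℤ → Sym))
  (φ : (ℤ → Sym) → (ℤ → Bool × Bool)), S.mu J Xᶜ = 0 → Measure.map φ (S.mu J) = lam2 →
  (∀ x ∈ X, ∀ c : ℤ, (fun n => x (n + c)) ∈ X ∧ φ (fun n => x (n + c)) = fun n => φ x (n + c)) →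
  ∀ j ∈ J, ∀ τ : Fin (S.s j) → Bool,
  3 * (S.e j : ℝ) / 8 - 1 / 2 ≤ ∑ t' ∈ Finset.range (S.T j),
    (und X φ (S.LD J j (fun v : Fin (n j (S.z j t')) => S.V j (S.c j t' + v))
      (fun v : Fin (n j (S.z j t')) => S.lvl j (ext τ) ((S.c j t' : ℤ) + (v : ℕ)))) : ℝ)

/-- N9. Necessity.  Average N8 over `τ` (N7): `3e/8 - 1/2 ≤ ∑_{t'} 2^{-N} ∑_u und (LD (word t') u)`; group by zone
and word (`mult`, `piece_clean`): `≤ ∑_{m < k j} b j m 2^{-N} ∑_{γ clean} ∑_u und (LD γ u)`, `N = n j m`; by N2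
`1 ≤ 2^{2N+2} μ(cyl (LD γ u))` and by N4 the words `LD γ u` are distinct, so this is
`≤ ∑_m b j m 2^{N+2} ∑_w und w μ(cyl w) ≤ ∑_m b j m 2^{N+2} 2^{-(2m+13)} N ≤ ∑_m 2^{m+6} e 2^2 2^{-(2m+13)}
= ∑_m 2^{-m-5} e ≤ e/16` (`b_le`).  With `e ≥ 2` this is a contradiction. -/
def S_nec : Prop := ∀ (k : ℕ → ℕ) (n : ℕ → ℕ → ℕ) (S : Sys k n) (J : Set ℕ) (X : Set (ℤ → Sym))
  (φ : (ℤ → Sym) → (ℤ → Bool × Bool)), S.mu J Xᶜ = 0 → Measure.map φ (S.mu J) = lam2 →
  (∀ x ∈ X, ∀ c : ℤ, (fun n => x (n + c)) ∈ X ∧ φ (fun n => x (n + c)) = fun n => φ x (n + c)) →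
  ∀ j ∈ J, (∀ m < k j, ∑ w : Fin (n j m) → Sym, (und X φ w : ℝ) * (S.mu J).real (cyl w) ≤
    (2⁻¹ : ℝ) ^ (2 * m + 13) * n j m) → False

/-! ### Descriptive set theory -/

/-- A1. A universal tree family with non-Borel set of ill-founded trees.  With
`D n := Denumerable.ofNat (Option (List ℕ × List ℕ)) n` put
`T x = {τ | ∀ m < τ.length, ∀ q, D (x m) = some q → ¬ (q.1 is a prefix of x ∧ q.2 <+: τ)}`.
`{x | τ ∈ T x}` is clopen (for fixed `m`, `x ↦ D (x m)` is locally constant and, for a given `q`, `q.1` being a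
prefix of `x` is clopen); `T x` is prefix closed.  `B = {x | T x has a branch}
= {x | ∃ z, ∀ m q, D (x m) = some q → ¬ (q.1 prefix of x ∧ q.2 prefix of z)}`.  If `B` is Borel then so is `Bᶜ`, hence
`Bᶜ` is analytic (`MeasurableSet.analyticSet`), so there is a closed `C ⊆ (ℕ→ℕ)×(ℕ→ℕ)` with
`Bᶜ = {x | ∃ z, (x,z) ∈ C}` (`C = {(x,z) | f z = x}` or `∅`).  `Cᶜ` is a countable union of boxes
`[q.1] × [q.2]`; choose `x₀` with `{D (x₀ m)} = {some q | [q.1]×[q.2] ⊆ Cᶜ} ∪ {none}`.  Then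
`x₀ ∈ Bᶜ ↔ ∃ z, (x₀,z) ∈ C ↔ x₀ ∈ B`, a contradiction. -/
def S_tree : Prop := ∃ T : (ℕ → ℕ) → Set (List ℕ), (∀ τ, IsClopen {x | τ ∈ T x}) ∧
  (∀ x τ τ', τ' <+: τ → τ ∈ T x → τ' ∈ T x) ∧
  ¬ MeasurableSet {x : ℕ → ℕ | ∃ z : ℕ → ℕ, ∀ N : ℕ, List.ofFn (fun i : Fin N => z i) ∈ T x}

/-- A2. König: compactness of `∏ {0..σ i}`. -/
def S_konig : Prop := ∀ (T : Set (List ℕ)) (σ : ℕ → ℕ), (∀ τ τ', τ' <+: τ → τ ∈ T → τ' ∈ T) →
  (∀ N : ℕ, ∃ M ≥ N, ∃ τ ∈ T, τ.length = M ∧ ∀ i < M, τ.getD i 0 ≤ σ i) →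
  ∃ z : ℕ → ℕ, ∀ N : ℕ, List.ofFn (fun i : Fin N => z i) ∈ T

/-! ### Existence of the word system -/

/-- B. Existence of the word system (assembled from the pieces in `Build.lean`). -/
def S_sys : Prop := ∃ N₀ : ℕ → ℕ, ∀ (k : ℕ → ℕ) (n : ℕ → ℕ → ℕ), (∀ j, 2 ≤ k j) →
  (∀ j m, m < k j → N₀ m ≤ n j m) → Nonempty (Sys k n)

/-! ### Assembly -/

/-- G1. Transport of finitary isomorphism along bijections of alphabets. -/
def S_transp : Prop := ∀ (α β α' β' : Type) [TopologicalSpace α] [MeasurableSpace α] [DiscreteTopology α]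
  [MeasurableSingletonClass α] [Fintype α] [TopologicalSpace β] [MeasurableSpace β] [DiscreteTopology β]
  [MeasurableSingletonClass β] [Fintype β] [TopologicalSpace α'] [MeasurableSpace α'] [DiscreteTopology α']
  [MeasurableSingletonClass α'] [Fintype α'] [TopologicalSpace β'] [MeasurableSpace β'] [DiscreteTopology β']
  [MeasurableSingletonClass β'] [Fintype β'] (e : α ≃ α') (e' : β ≃ β') (μ : Measure (ℤ → α))
  (ν : Measure (ℤ → β)), FinIso μ ν ↔
    FinIso (Measure.map (fun x z => e (x z)) μ) (Measure.map (fun x z => e' (x z)) ν)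

end Pool.Agent.Lib.MP_8d5788_an
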